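import Pool.Agent.helper17.MK.Spec

set_option autoImplicit false

/-!
# Four clusters, row EV: the expectation of `SU`
-/

namespace Pool.Agent.MK

open Finset Real Pool.Agent.helper39.MT Pool.Agent.helper85.FC

theorem EV : EV_stmt := by
  intro ι _ _ k pr l P m m' μ g hinj hμ hP hg
  classical
  have hmem : ∀ (e : ι → Option (Fin k)) (p : ι),
      pr p ∈ TS pr m e ∪ TS pr m' e ↔ (e p = some m ∨ e p = some m') := by
    intro e p
    unfold TS cls
    rw [mem_union, mem_image, mem_image]
    constructor
    · rintro (⟨q, hq, h⟩ | ⟨q, hq, h⟩)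
      · have h1 := hinj h
        subst h1
        exact Or.inl (mem_filter.1 hq).2
      · have h1 := hinj h
        subst h1
        exact Or.inr (mem_filter.1 hq).2
    · rintro (h | h)
      · exact Or.inl ⟨p, mem_filter.2 ⟨mem_univ _, h⟩, rfl⟩
      · exact Or.inr ⟨p, mem_filter.2 ⟨mem_univ _, h⟩, rfl⟩
  have hSU : ∀ e : ι → Option (Fin k), SU pr l P m m' e = ∑ K ∈ P.powerset, l K *
      ∏ p, (if pr p ∈ K then (if e p = some m ∨ e p = some m' then (1 : ℝ) else 0) else 1) := by
    intro e
    unfold SU Sg
    have h1 : ∀ K ∈ P.powerset, l K *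
        ∏ p, (if pr p ∈ K then (if e p = some m ∨ e p = some m' then (1 : ℝ) else 0) else 1) =
        if K ⊆ TS pr m e ∪ TS pr m' e then l K else 0 := by
      intro K hK
      rw [mem_powerset] at hK
      split_ifs with h
      · rw [prod_eq_one, mul_one]
        intro p _
        split_ifs with h2 h3
        · rfl
        · exact absurd ((hmem e p).1 (h h2)) h3
        · rfl
      · rw [not_subset] at h
        obtain ⟨n, hn, hn'⟩ := h
        obtain ⟨p, rfl⟩ := hP n (hK hn)
        have h3 : ¬(e p = some m ∨ e p = some m') := fun h => hn' ((hmem e p).2 h)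
        rw [prod_eq_zero (mem_univ p) (by rw [if_pos hn, if_neg h3]), mul_zero]
    rw [sum_congr rfl h1, ← sum_filter]
    apply sum_congr _ fun _ _ => rfl
    ext K
    rw [mem_powerset, mem_filter, mem_powerset, subset_inter_iff]
    tauto
  unfold Ex Mn
  simp only [hSU, mul_sum]
  rw [sum_comm]
  refine sum_congr rfl fun K hK => ?_
  rw [mem_powerset] at hK
  have h1 : ∀ e : ι → Option (Fin k), (∏ p, μ p (e p)) * (l K *
      ∏ p, (if pr p ∈ K then (if e p = some m ∨ e p = some m' then (1 : ℝ) else 0) else 1)) =
      l K * ∏ p, (μ p (e p) *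
        (if pr p ∈ K then (if e p = some m ∨ e p = some m' then (1 : ℝ) else 0) else 1)) := by
    intro e
    rw [prod_mul_distrib]
    ring
  rw [sum_congr rfl fun e _ => h1 e, ← mul_sum]
  congr 1
  have h2 := Finset.prod_univ_sum (fun _ : ι => (univ : Finset (Option (Fin k))))
    (fun p x => μ p x * (if pr p ∈ K then (if x = some m ∨ x = some m' then (1 : ℝ) else 0) else 1))
  rw [Fintype.piFinset_univ] at h2
  rw [← h2]
  have h3 : ∀ p, ∑ x, μ p x *
      (if pr p ∈ K then (if x = some m ∨ x = some m' then (1 : ℝ) else 0) else 1) =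
      if pr p ∈ K then g (pr p) else 1 := by
    intro p
    split_ifs with h
    · rw [hg p]
      by_cases hmm : m = m'
      · subst hmm
        rw [if_pos rfl]
        rw [sum_eq_single (some m)]
        · rw [if_pos (Or.inl rfl), mul_one]
        · intro x _ hx
          rw [if_neg (by tauto), mul_zero]
        · intro h; exact absurd (mem_univ _) h
      · rw [if_neg hmm]
        have hne : (some m : Option (Fin k)) ≠ some m' := fun h => hmm (Option.some.inj h)
        rw [sum_eq_add (some m) (some m') hne]
        · rw [if_pos (Or.inl rfl), if_pos (Or.inr rfl), mul_one, mul_one]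
        · intro x _ hx
          rw [if_neg (by tauto), mul_zero]
        · intro h; exact absurd (mem_univ _) h
        · intro h; exact absurd (mem_univ _) h
    · refine Eq.trans ?_ (hμ p)
      exact sum_congr rfl fun x _ => mul_one _
  rw [prod_congr rfl fun p _ => h3 p, ← prod_filter]
  have h4 : K = (univ.filter fun p => pr p ∈ K).image pr := by
    ext n
    rw [mem_image]
    constructor
    · intro hn
      obtain ⟨p, rfl⟩ := hP n (hK hn)
      exact ⟨p, mem_filter.2 ⟨mem_univ _, hn⟩, rfl⟩
    · rintro ⟨p, hp, rfl⟩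
      exact (mem_filter.1 hp).2
  conv_rhs => rw [h4]
  rw [prod_image (fun a _ b _ h => hinj h)]

end Pool.Agent.MK
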